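import Pool.Agent.H19VF.Q6b_Main
import Pool.Agent.H19VF.Q7_Smooth
import Pool.Agent.H19VF.R3_Dim
import Pool.Agent.H19VF.S2_Free
import Pool.Agent.H19VF.S5_Split

/-!
# Very free curves through finitely many points of a smooth separably rationally connected variety

`k` is an algebraically closed field of arbitrary characteristic and `V` is a smooth variety over
`k`, not necessarily proper, with a very free morphism `P1 ⟶ V`. We prove that `V` itself has the
property which defines the open subset `V_0` of `V`: any finitely many closed points of `V` lie on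
a very free curve in `V`, as smooth points of the curve. So `V_0 = V`.

All definitions which occur in the statement are in this file. The proof is in the files
`Pool/Agent/H19VF`.
-/

set_option autoImplicit false

open AlgebraicGeometry CategoryTheory Polynomial

universe u

namespace Pool.Agent.Results.MP_1858fb_ag.V0EqualsV

/-! ## The projective line and its standard charts -/

section P1

attribute [local instance] MvPolynomial.gradedAlgebra

variable (k : Type u) [Field k]

/-- The grading of `k[X₀, X₁]` by the degree. -/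
noncomputable abbrev gr : ℕ → Submodule k (MvPolynomial (Fin 2) k) :=
  MvPolynomial.homogeneousSubmodule (Fin 2) k

/-- The projective line over `k`. -/
noncomputable def P1 : Scheme.{u} := Proj (gr k)

/-- The structure morphism of the projective line. -/
noncomputable def P1.str : P1 k ⟶ Spec (.of k) :=
  Proj.toSpecZero (gr k) ≫ Spec.map (CommRingCat.ofHom (algebraMap k (gr k 0)))

/-- Dehomogenization: a fraction of degree zero with denominator a power of `X i` is mapped to the
polynomial obtained by `X i ↦ 1` and `X j ↦ X` for `j ≠ i`. -/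
noncomputable def deh (i : Fin 2) :
    HomogeneousLocalization.Away (gr k) (MvPolynomial.X i : MvPolynomial (Fin 2) k) →+* k[X] :=
  (IsLocalization.Away.lift (S := Localization.Away (MvPolynomial.X i : MvPolynomial (Fin 2) k))
    (MvPolynomial.X i : MvPolynomial (Fin 2) k)
    (g := (MvPolynomial.aeval (fun j => if j = i then (1 : k[X]) else X) :
      MvPolynomial (Fin 2) k →ₐ[k] k[X]).toRingHom) (by simp)).comp
    (algebraMap (HomogeneousLocalization.Away (gr k) (MvPolynomial.X i : MvPolynomial (Fin 2) k))
      (Localization.Away (MvPolynomial.X i : MvPolynomial (Fin 2) k)))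

/-- The standard affine charts of the projective line: for `i = 0` the coordinate of the chart is
`y = X₁ / X₀` and for `i = 1` it is `w = X₀ / X₁`. -/
noncomputable def P1.chart (i : Fin 2) : Spec (.of k[X]) ⟶ P1 k :=
  Spec.map (CommRingCat.ofHom (deh k i)) ≫
    Proj.awayι (gr k) (MvPolynomial.X i : MvPolynomial (Fin 2) k) (m := 1)
      ((MvPolynomial.mem_homogeneousSubmodule _ _).2 (MvPolynomial.isHomogeneous_X k i))
      zero_lt_one

end P1

variable {k : Type u} [Field k] {V : Scheme.{u}} {π : V ⟶ Spec (.of k)}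

/-! ## Points with values in rings, tangent fields

For a morphism `p : Spec R ⟶ V`, the sections over `Spec R` of the pull back `p^* T_V` of the
tangent sheaf are the morphisms `Spec R[ε] ⟶ V` over `k` which restrict to `p` on `Spec R`; we call
them tangent fields along `p`. For `R = k` these are the tangent vectors of `V` at the point `p`. -/

/-- The points of the `k`-scheme `π : V ⟶ Spec k` with values in the `k`-algebra `R`: the morphisms
`Spec R ⟶ V` over `k`. -/
noncomputable def Pt (π : V ⟶ Spec (.of k)) (R : Type u) [CommRing R] [Algebra k R] : Type u :=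
  {g : Spec (.of R) ⟶ V // g ≫ π = Spec.map (CommRingCat.ofHom (algebraMap k R))}

/-- The image of a point under a homomorphism of `k`-algebras. -/
noncomputable def Pt.map {R R' : Type u} [CommRing R] [Algebra k R] [CommRing R'] [Algebra k R']
    (p : Pt π R) (φ : R →ₐ[k] R') : Pt π R' :=
  ⟨Spec.map (CommRingCat.ofHom φ.toRingHom) ≫ p.1, by
    rw [Category.assoc, p.2, ← Spec.map_comp, ← CommRingCat.ofHom_comp]
    congr 2
    exact φ.comp_algebraMap⟩

/-- `τ` is a tangent field along `p`: its restriction along `R[ε] → R`, `ε ↦ 0`, is `p`. -/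
def IsAlong {R : Type u} [CommRing R] [Algebra k R] (τ : Pt π (DualNumber R))
    (p : Spec (.of R) ⟶ V) : Prop :=
  (τ.map (TrivSqZeroExt.fstHom k R R)).1 = p

/-- The homomorphism `R[ε] → R'[ε]`, `r + s ε ↦ φ r + φ s ε`, induced by `φ : R → R'`. -/
noncomputable def dmap {R R' : Type u} [CommRing R] [Algebra k R] [CommRing R'] [Algebra k R']
    (φ : R →ₐ[k] R') : DualNumber R →ₐ[k] DualNumber R' where
  toFun x := TrivSqZeroExt.inl (φ x.fst) + TrivSqZeroExt.inr (φ x.snd)
  map_one' := by ext <;> simp
  map_mul' x y := by ext <;> simp [mul_comm]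
  map_zero' := by ext <;> simp
  map_add' x y := by ext <;> simp
  commutes' r := by ext <;> simp [TrivSqZeroExt.algebraMap_eq_inl']

/-- The homomorphism `R[ε] → R[ε]`, `ε ↦ r ε`. The image of a tangent field `τ` is `r • τ`. -/
noncomputable def scl (k : Type u) [Field k] {R : Type u} [CommRing R] [Algebra k R] (r : R) :
    DualNumber R →ₐ[k] DualNumber R where
  toFun x := TrivSqZeroExt.inl x.fst + TrivSqZeroExt.inr (r * x.snd)
  map_one' := by ext <;> simp
  map_mul' x y := by
    ext
    · simp
    · simp
      ring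
  map_zero' := by ext <;> simp
  map_add' x y := by ext <;> simp [mul_add]
  commutes' r := by ext <;> simp [TrivSqZeroExt.algebraMap_eq_inl']

/-- The homomorphism `R ⊕ R^n → R[ε]`, `(r, x) ↦ r + (∑ c i * x i) ε`, on the square zero extension
of `R` by `R^n`. -/
noncomputable def lin (k : Type u) [Field k] {R : Type u} [CommRing R] [Algebra k R] {n : ℕ}
    (c : Fin n → R) : TrivSqZeroExt R (Fin n → R) →ₐ[k] DualNumber R where
  toFun x := TrivSqZeroExt.inl x.fst + TrivSqZeroExt.inr (∑ i, c i * x.snd i)
  map_one' := by ext <;> simp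
  map_mul' x y := by
    ext
    · simp
    · simp only [TrivSqZeroExt.fst_mul, TrivSqZeroExt.snd_mul, TrivSqZeroExt.snd_add,
        TrivSqZeroExt.snd_inl, TrivSqZeroExt.snd_inr, zero_add, TrivSqZeroExt.fst_add,
        TrivSqZeroExt.fst_inl, TrivSqZeroExt.fst_inr, add_zero, Pi.add_apply, Pi.smul_apply,
        smul_eq_mul, MulOpposite.smul_eq_mul_unop, MulOpposite.unop_op, Finset.mul_sum,
        Finset.sum_mul]
      rw [← Finset.sum_add_distrib]
      refine Finset.sum_congr rfl fun i _ => by ring
  map_zero' := by ext <;> simp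
  map_add' x y := by
    ext
    · simp
    · simp [mul_add, Finset.sum_add_distrib]
  commutes' r := by ext <;> simp [TrivSqZeroExt.algebraMap_eq_inl']

/-- `τ` is the linear combination `∑ c i • e i` of the tangent fields `e i` along the same
morphism: there is a morphism `Spec (R ⊕ R^n) ⟶ V` with components `e i` (a tuple of tangent fields
along the same morphism is the same as such a morphism) whose restriction along
`(r, x) ↦ r + (∑ c i * x i) ε` is `τ`. -/
def IsComb {R : Type u} [CommRing R] [Algebra k R] {n : ℕ} (e : Fin n → Pt π (DualNumber R))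
    (c : Fin n → R) (τ : Pt π (DualNumber R)) : Prop :=
  ∃ ρ : Pt π (TrivSqZeroExt R (Fin n → R)), (∀ i, ρ.map (lin k (Pi.single i 1)) = e i) ∧
    ρ.map (lin k c) = τ

/-- The `e i` form a basis of the tangent space of `V` at the point `p : Spec k ⟶ V`. -/
def IsTanBasis (p : Spec (.of k) ⟶ V) {n : ℕ} (e : Fin n → Pt π (DualNumber k)) : Prop :=
  (∀ i, IsAlong (e i) p) ∧
    ∀ τ : Pt π (DualNumber k), IsAlong τ p → ∃! c : Fin n → k, IsComb e c τ

/-! ## Very free morphisms -/

/-- Evaluation of polynomials at `x`. -/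
noncomputable def ev (x : k) : k[X] →ₐ[k] k := Polynomial.aeval x

/-- The embedding `k[y] → k[T, T⁻¹]`, `y ↦ T`: the overlap of the two standard charts of the
projective line as an open subscheme of the chart with coordinate `y`. -/
noncomputable def incY (k : Type u) [Field k] : k[X] →ₐ[k] LaurentPolynomial k :=
  Polynomial.aeval (LaurentPolynomial.T 1)

/-- The embedding `k[w] → k[T, T⁻¹]`, `w ↦ T⁻¹`: the overlap of the two standard charts of the
projective line as an open subscheme of the chart with coordinate `w = 1 / y`. -/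
noncomputable def incW (k : Type u) [Field k] : k[X] →ₐ[k] LaurentPolynomial k :=
  Polynomial.aeval (LaurentPolynomial.T (-1))

/-- `f^* T_V ≅ ⊕ O(a i)`: there are tangent fields `e i` along the restriction of `f` to the
standard chart of the projective line with coordinate `y`, and `e' i` along the restriction to the
chart with coordinate `w = 1 / y`, with `e i = y ^ (- a i) • e' i` on the overlap, such that at each
closed point of the charts they form a basis of the tangent space of `V` at the image point. (On
the overlap the standard generators `X₀ ^ a` and `X₁ ^ a` of `O(a)` on the two charts satisfy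
`X₀ ^ a = y ^ (- a) * X₁ ^ a`. So the `e i`, `e' i` are a homomorphism of vector bundles from
`⊕ O(a i)` to `f^* T_V`, and it is an isomorphism on the fibres at all closed points.) -/
def HasSplitting (π : V ⟶ Spec (.of k)) (f : P1 k ⟶ V) {n : ℕ} (a : Fin n → ℤ) : Prop :=
  ∃ e e' : Fin n → Pt π (DualNumber k[X]),
    (∀ i, IsAlong (e i) (P1.chart k 0 ≫ f)) ∧ (∀ i, IsAlong (e' i) (P1.chart k 1 ≫ f)) ∧
    (∀ i, (e i).map (dmap (incY k)) =
      ((e' i).map (dmap (incW k))).map (scl k (LaurentPolynomial.T (-(a i))))) ∧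
    (∀ x : k, IsTanBasis (Spec.map (CommRingCat.ofHom (ev x).toRingHom) ≫ P1.chart k 0 ≫ f)
      (fun i => (e i).map (dmap (ev x)))) ∧
    (∀ x : k, IsTanBasis (Spec.map (CommRingCat.ofHom (ev x).toRingHom) ≫ P1.chart k 1 ≫ f)
      (fun i => (e' i).map (dmap (ev x))))

/-- The `k`-morphism `f : P1 ⟶ V` is very free: `f^* T_V` is isomorphic to a direct sum of line
bundles `O(a i)` with all `a i ≥ 1`. -/
def IsVeryFree (π : V ⟶ Spec (.of k)) (f : P1 k ⟶ V) : Prop :=
  f ≫ π = P1.str k ∧ ∃ (n : ℕ) (a : Fin n → ℤ), (∀ i, 1 ≤ a i) ∧ HasSplitting π f a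

/-! ## The property which defines `V_0` -/

/-- The point `v` of `V` is a smooth point of the image curve of the morphism `f`: it lies on the
scheme-theoretic image of `f` (the reduced closed subscheme of `V` with underlying set the image),
and the local ring of the image at `v` is regular. -/
def IsSmoothPointOfImage (f : P1 k ⟶ V) (v : V) : Prop :=
  ∃ y : f.image, f.imageι y = v ∧ IsRegularLocalRing (f.image.presheaf.stalk y)

/-- Any finitely many closed points of `U` lie on a very free curve in `U`, each as a smooth point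
of the curve. -/
def HasProp (π : V ⟶ Spec (.of k)) (U : V.Opens) : Prop :=
  ∀ T : Finset V, T.Nonempty → (∀ v ∈ T, v ∈ U ∧ IsClosed ({v} : Set V)) →
    ∃ f : P1 k ⟶ V, IsVeryFree π f ∧ (∀ x, f x ∈ U) ∧ ∀ v ∈ T, IsSmoothPointOfImage f v

/-! ## Comparison with the definitions used in the proof -/

theorem incY_eq : H19VF.lauY k k = incY k := rfl

theorem incW_eq : H19VF.lauW k k = incW k := rfl

theorem ev_eq (x : k) : (H19VF.evk x : k[X] →ₐ[k] k) = ev x := rfl

theorem isAlong_iff {R : Type u} [CommRing R] [Algebra k R] (τ : Pt π (DualNumber R))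
    (p : Pt π R) : IsAlong τ p.1 ↔ H19VF.Pt.map (π := π) τ (H19VF.dfst k R) = p := by
  constructor
  · intro h
    exact Subtype.ext h
  · intro h
    exact congrArg Subtype.val h

theorem isTanBasis_iff (p : Pt π k) {n : ℕ} (e : Fin n → Pt π (DualNumber k)) :
    IsTanBasis p.1 e ↔ H19VF.IsTanBasis (π := π) p e := by
  constructor
  · rintro ⟨h1, h2⟩
    exact ⟨fun i => (isAlong_iff _ _).1 (h1 i), fun τ hτ => h2 τ ((isAlong_iff _ _).2 hτ)⟩
  · rintro ⟨h1, h2⟩
    exact ⟨fun i => (isAlong_iff _ _).2 (h1 i), fun τ hτ => h2 τ ((isAlong_iff _ _).1 hτ)⟩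

theorem isSplit_iff (f : P1 k ⟶ V) (hf : f ≫ π = P1.str k) {n : ℕ} (a : Fin n → ℤ) :
    HasSplitting π f a ↔ H19VF.IsSplit (H19VF.Crv.ofHom f hf) a := by
  constructor
  · rintro ⟨e, e', h1, h2, h3, h4, h5⟩
    exact ⟨e, e', fun i => (isAlong_iff _ (H19VF.Crv.ofHom f hf).y).1 (h1 i),
      fun i => (isAlong_iff _ (H19VF.Crv.ofHom f hf).w).1 (h2 i), h3,
      fun x => (isTanBasis_iff ((H19VF.Crv.ofHom f hf).y.map (H19VF.evk x)) _).1 (h4 x),
      fun x => (isTanBasis_iff ((H19VF.Crv.ofHom f hf).w.map (H19VF.evk x)) _).1 (h5 x)⟩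
  · rintro ⟨e, e', h1, h2, h3, h4, h5⟩
    exact ⟨e, e', fun i => (isAlong_iff _ (H19VF.Crv.ofHom f hf).y).2 (h1 i),
      fun i => (isAlong_iff _ (H19VF.Crv.ofHom f hf).w).2 (h2 i), h3,
      fun x => (isTanBasis_iff ((H19VF.Crv.ofHom f hf).y.map (H19VF.evk x)) _).2 (h4 x),
      fun x => (isTanBasis_iff ((H19VF.Crv.ofHom f hf).w.map (H19VF.evk x)) _).2 (h5 x)⟩

theorem smooth_dim_zero [IsAlgClosed k] [IsIso π] [IsIntegral V] (f : P1 k ⟶ V) (v : V) :
    IsSmoothPointOfImage f v := by
  have hsub : Subsingleton V := by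
    have h1 : Subsingleton (Spec (.of k)) := inferInstanceAs (Subsingleton (PrimeSpectrum k))
    exact (Scheme.homeoOfIso (asIso π)).toEquiv.subsingleton
  have hne : Nonempty (P1 k) :=
    ⟨P1.chart k 0 (⟨⊥, Ideal.isPrime_bot⟩ : PrimeSpectrum k[X])⟩
  obtain ⟨x⟩ := hne
  refine ⟨f.toImage x, Subsingleton.elim _ _, ?_⟩
  have hfld : ∀ y : V, IsField (V.presheaf.stalk y) := by
    intro y
    obtain rfl : y = genericPoint V := Subsingleton.elim _ _
    exact Field.toIsField V.functionField
  have h1 := f.imageι.stalkMap_surjective (f.toImage x)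
  have h2 := hfld (f.imageι (f.toImage x))
  have h3 : IsField (f.image.presheaf.stalk (f.toImage x)) := by
    let _ := h2.toField
    have h4 : Function.Bijective (f.imageι.stalkMap (f.toImage x)).hom :=
      ⟨(f.imageι.stalkMap (f.toImage x)).hom.injective, h1⟩
    exact (RingEquiv.ofBijective _ h4).symm.toMulEquiv.isField h2
  let _ := h3.toField
  infer_instance

theorem regular_aux (R : Type u) [CommRing R] (h1 : IsDomain R)
    (h2 : IsDiscreteValuationRing R) : IsRegularLocalRing R := inferInstance

theorem regular_of_dvr (f : P1 k ⟶ V) (v : V) (h : H19VF.IsSmoothPointOfImage f v) :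
    IsSmoothPointOfImage f v := by
  obtain ⟨y, hy, h1, h2⟩ := h
  exact ⟨y, hy, regular_aux _ h1 h2⟩

theorem hasProp_top [IsAlgClosed k] [IsIntegral V] [IsSeparated π] [LocallyOfFiniteType π]
    [QuasiCompact π] [Smooth π] (h : ∃ f : P1 k ⟶ V, IsVeryFree π f) : HasProp π ⊤ := by
  classical
  intro T _ hTc
  obtain ⟨f0, hf0, n0, a0, ha0, hs0⟩ := h
  have hvf : H19VF.IsVeryFree (H19VF.Crv.ofHom f0 hf0) :=
    H19VF.isVeryFree_of_isSplit _ a0 ((isSplit_iff f0 hf0 a0).1 hs0) ha0
  obtain ⟨n, hn⟩ := H19VF.exists_relDim (π := π)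
  have key : ∀ (f : P1 k ⟶ V) (hf : f ≫ π = P1.str k),
      H19VF.IsVeryFree (H19VF.Crv.ofHom f hf) → IsVeryFree π f := by
    intro f hf h
    obtain ⟨a, ha, hsplit⟩ := H19VF.isSplit_of_isVeryFree (n := n) _ h
    exact ⟨hf, n, a, ha, (isSplit_iff f hf a).2 hsplit⟩
  rcases Nat.lt_or_ge n 2 with hn2 | hn2
  · interval_cases n
    · have := H19VF.dim_zero (π := π)
      exact ⟨f0, key f0 hf0 hvf, fun x => trivial, fun v _ => smooth_dim_zero (π := π) f0 v⟩
    · exact ⟨f0, key f0 hf0 hvf, fun x => trivial, fun v hv => regular_of_dvr f0 v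
        (H19VF.smooth_dim_one (π := π) f0 hf0 hvf v (hTc v hv).2)⟩
  · have hpt : ∀ v : T, ∃ p : H19VF.Pt π k, p.pnt = v := by
      intro v
      obtain ⟨p, hp⟩ := H19VF.exists_pt (π := π) v.1 (hTc v.1 v.2).2
      refine ⟨p, ?_⟩
      have h1 : p.pnt ∈ Set.range p.1 := ⟨_, rfl⟩
      rw [hp] at h1
      exact h1
    choose p hp using hpt
    let e := T.equivFin.symm
    have hinj : Function.Injective fun i => p (e i) := by
      intro i j hij
      have h1 : (p (e i)).pnt = (p (e j)).pnt := congrArg H19VF.Pt.pnt hij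
      rw [hp, hp] at h1
      exact e.injective (Subtype.ext h1)
    obtain ⟨F, σ, h1, h2, h3, h4⟩ := H19VF.theorem_B hn2 _ hvf (fun i => p (e i)) hinj
    obtain ⟨f, hf, hfF⟩ := H19VF.Crv.exists_hom F
    subst hfF
    refine ⟨f, key f hf h1, fun x => trivial, fun v hv => ?_⟩
    have h5 := H19VF.smooth_of_only f hf (p (e (e.symm ⟨v, hv⟩))) (σ (e.symm ⟨v, hv⟩))
      (h2 _) (h3 _) (h4 _)
    rw [Equiv.apply_symm_apply, hp] at h5
    exact regular_of_dvr f v h5

/-- Let `V` be a smooth variety over the algebraically closed field `k` of arbitrary characteristic,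
not necessarily proper, which admits a very free morphism from the projective line. Then `V` is the
largest open subset `U` of `V` with the property: any finitely many closed points of `U` lie on a
very free curve in `U`, each as a smooth point of the curve. In other words, `V_0 = V`. -/
theorem result (k : Type u) [Field k] [IsAlgClosed k] (V : Scheme.{u}) (π : V ⟶ Spec (.of k))
    [IsIntegral V] [IsSeparated π] [LocallyOfFiniteType π] [QuasiCompact π] [Smooth π]
    (h : ∃ f : P1 k ⟶ V, IsVeryFree π f) : IsGreatest {U : V.Opens | HasProp π U} ⊤ :=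
  ⟨hasProp_top h, fun _ _ => le_top⟩

end Pool.Agent.Results.MP_1858fb_ag.V0EqualsV
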